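import Mathlib

/-!
# Directed bisimulations and positivity on finite neighborhood frames

A formula is equivalent in a finite neighborhood frame to a `p`-positive formula if and only if it
is preserved under all `p`-directed bisimulations between models on the frame.

Idea. Between two finite models the following relation is a `p`-directed bisimulation: all
`p`-positive formulas (in the variables of `φ`) true at `w₁` are true at `w₂`. Indeed, if `w₁ ∈ ◇ X`, then there is one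
positive formula true on `X` and false outside of the image of `X`; if `w₁ ∉ ◇ Z⁻¹(X)`, then there
is one positive formula `β` true outside of `Z⁻¹(X)` and false on `X`, and `□ β` is true at `w₁`,
hence at `w₂`. So a formula preserved under directed bisimulations can be separated by positive
formulas, and there are only finitely many models to be considered.
-/

set_option autoImplicit false

namespace Pool.Agent.Results.MP_5daced_lc.DirectedBisimPositivity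

/-- Formulas: `pos n` and `neg n` are the literals `pₙ` and `¬pₙ`. -/
inductive Fm : Type
  | pos (n : ℕ) : Fm
  | neg (n : ℕ) : Fm
  | bot : Fm
  | top : Fm
  | and (φ ψ : Fm) : Fm
  | or (φ ψ : Fm) : Fm
  | dia (φ : Fm) : Fm
  | box (φ : Fm) : Fm

namespace Fm

/-- No literal `¬pₙ` with `n ∈ P` occurs. -/
def Positive (P : List ℕ) : Fm → Prop
  | pos _ => True
  | neg n => n ∉ P
  | bot => True
  | top => True
  | and φ ψ => Positive P φ ∧ Positive P ψ
  | or φ ψ => Positive P φ ∧ Positive P ψ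
  | dia φ => Positive P φ
  | box φ => Positive P φ

/-- The variables. -/
def vars : Fm → Finset ℕ
  | pos n => {n}
  | neg n => {n}
  | bot => ∅
  | top => ∅
  | and φ ψ => vars φ ∪ vars ψ
  | or φ ψ => vars φ ∪ vars ψ
  | dia φ => vars φ
  | box φ => vars φ

end Fm

/-- A neighborhood frame on `W`: a monotone operation on the subsets of `W`. -/
structure NFrame (W : Type*) where
  /-- the operation `◇` on sets -/
  dia : Set W → Set W
  mono : ∀ X Y : Set W, X ⊆ Y → dia X ⊆ dia Y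

variable {W : Type*}

/-- The dual operation `□`. -/
def NFrame.box (F : NFrame W) (X : Set W) : Set W := (F.dia Xᶜ)ᶜ

/-- The set of points where a formula is true in the model on `F` with valuation `ϑ`. -/
def NFrame.eval (F : NFrame W) (ϑ : ℕ → Set W) : Fm → Set W
  | .pos n => ϑ n
  | .neg n => (ϑ n)ᶜ
  | .bot => ∅
  | .top => Set.univ
  | .and φ ψ => F.eval ϑ φ ∩ F.eval ϑ ψ
  | .or φ ψ => F.eval ϑ φ ∪ F.eval ϑ ψ
  | .dia φ => F.dia (F.eval ϑ φ)
  | .box φ => F.box (F.eval ϑ φ)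

/-- Equivalence in a frame. -/
def NFrame.Equiv (F : NFrame W) (φ ψ : Fm) : Prop := ∀ ϑ : ℕ → Set W, F.eval ϑ φ = F.eval ϑ ψ

/-- The image of a set under a relation. -/
def img {W₁ W₂ : Type*} (Z : W₁ → W₂ → Prop) (X : Set W₁) : Set W₂ := {v | ∃ w ∈ X, Z w v}

/-- Bisimulations between neighborhood frames. -/
def Bisim {W₁ W₂ : Type*} (F₁ : NFrame W₁) (F₂ : NFrame W₂) (Z : W₁ → W₂ → Prop) : Prop :=
  (∀ X : Set W₁, img Z (F₁.dia X) ⊆ F₂.dia (img Z X)) ∧
  ∀ X : Set W₂, img (fun v w => Z w v) (F₂.dia X) ⊆ F₁.dia (img (fun v w => Z w v) X)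

/-- `P`-directed bisimulations between the models `(F₁, ϑ₁)` and `(F₂, ϑ₂)`: bisimulations between
the frames which preserve all literals except the `¬pₙ` with `n ∈ P`. -/
def DirBisim {W₁ W₂ : Type*} (P : List ℕ) (F₁ : NFrame W₁) (ϑ₁ : ℕ → Set W₁) (F₂ : NFrame W₂)
    (ϑ₂ : ℕ → Set W₂) (Z : W₁ → W₂ → Prop) : Prop :=
  Bisim F₁ F₂ Z ∧ (∀ n, img Z (ϑ₁ n) ⊆ ϑ₂ n) ∧ ∀ n, n ∉ P → img Z (ϑ₁ n)ᶜ ⊆ (ϑ₂ n)ᶜ

/-! ### Positive formulas are preserved -/

lemma preserved {W₁ W₂ : Type*} {P : List ℕ} {F₁ : NFrame W₁} {ϑ₁ : ℕ → Set W₁} {F₂ : NFrame W₂}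
    {ϑ₂ : ℕ → Set W₂} {Z : W₁ → W₂ → Prop} (h : DirBisim P F₁ ϑ₁ F₂ ϑ₂ Z) (φ : Fm)
    (hφ : φ.Positive P) : img Z (F₁.eval ϑ₁ φ) ⊆ F₂.eval ϑ₂ φ := by
  obtain ⟨⟨h1, h2⟩, h3, h4⟩ := h
  induction φ with
  | pos n => exact h3 n
  | neg n => exact h4 n hφ
  | bot =>
    rintro v ⟨w, hw, -⟩
    exact hw.elim
  | top => exact fun _ _ => trivial
  | and φ ψ ih1 ih2 =>
    rintro v ⟨w, hw, hz⟩
    exact ⟨ih1 hφ.1 ⟨w, hw.1, hz⟩, ih2 hφ.2 ⟨w, hw.2, hz⟩⟩
  | or φ ψ ih1 ih2 =>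
    rintro v ⟨w, hw | hw, hz⟩
    · exact Or.inl (ih1 hφ.1 ⟨w, hw, hz⟩)
    · exact Or.inr (ih2 hφ.2 ⟨w, hw, hz⟩)
  | dia φ ih => exact (h1 _).trans (F₂.mono _ _ (ih hφ))
  | box φ ih =>
    rintro v ⟨w, hw, hz⟩ hv
    have h5 := h2 _ ⟨v, hv, hz⟩
    refine hw (F₁.mono _ _ ?_ h5)
    rintro w' ⟨v', hv', hz'⟩ hw'
    exact hv' (ih hφ ⟨w', hw', hz'⟩)

/-! ### Separation by positive formulas -/

/-- The formulas used for separation: `P`-positive with variables in `V`. -/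
def Good (P : List ℕ) (V : Finset ℕ) (φ : Fm) : Prop := φ.Positive P ∧ φ.vars ⊆ V

section
variable (F : NFrame W) {P : List ℕ} {V : Finset ℕ}

/-- Truth at a pointed model on `F`. -/
def Tr (x : (ℕ → Set W) × W) (φ : Fm) : Prop := x.2 ∈ F.eval x.1 φ

lemma sep_one {B : Set ((ℕ → Set W) × W)} (hB : B.Finite) (a : (ℕ → Set W) × W)
    (h : ∀ b ∈ B, ∃ α, Good P V α ∧ Tr F a α ∧ ¬ Tr F b α) :
    ∃ α, Good P V α ∧ Tr F a α ∧ ∀ b ∈ B, ¬ Tr F b α := by
  induction B, hB using Set.Finite.induction_on with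
  | empty => exact ⟨.top, ⟨trivial, Finset.empty_subset _⟩, trivial, by simp⟩
  | @insert b B _ _ ih =>
    obtain ⟨α, h1, h2, h3⟩ := h b (Set.mem_insert _ _)
    obtain ⟨β, h4, h5, h6⟩ := ih fun c hc => h c (Set.mem_insert_of_mem _ hc)
    refine ⟨.and α β, ⟨⟨h1.1, h4.1⟩, Finset.union_subset h1.2 h4.2⟩, ⟨h2, h5⟩, ?_⟩
    rintro c (rfl | hc) hh
    · exact h3 hh.1
    · exact h6 c hc hh.2

lemma sep {A B : Set ((ℕ → Set W) × W)} (hA : A.Finite) (hB : B.Finite)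
    (h : ∀ a ∈ A, ∀ b ∈ B, ∃ α, Good P V α ∧ Tr F a α ∧ ¬ Tr F b α) :
    ∃ α, Good P V α ∧ (∀ a ∈ A, Tr F a α) ∧ ∀ b ∈ B, ¬ Tr F b α := by
  induction A, hA using Set.Finite.induction_on with
  | empty => exact ⟨.bot, ⟨trivial, Finset.empty_subset _⟩, by simp, fun _ _ h => h⟩
  | @insert a A _ _ ih =>
    obtain ⟨α, h1, h2, h3⟩ := sep_one F hB a (h a (Set.mem_insert _ _))
    obtain ⟨β, h4, h5, h6⟩ := ih fun c hc => h c (Set.mem_insert_of_mem _ hc)
    refine ⟨.or α β, ⟨⟨h1.1, h4.1⟩, Finset.union_subset h1.2 h4.2⟩, ?_, ?_⟩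
    · rintro c (rfl | hc)
      · exact Or.inl h2
      · exact Or.inr (h5 c hc)
    · rintro c hc (hh | hh)
      · exact h3 c hc hh
      · exact h6 c hc hh

/-- Inclusion of the sets of true positive formulas. -/
def ZZ (P : List ℕ) (V : Finset ℕ) (ϑ₁ ϑ₂ : ℕ → Set W) (w v : W) : Prop :=
  ∀ α, Good P V α → Tr F (ϑ₁, w) α → Tr F (ϑ₂, v) α

lemma dirBisim_ZZ [Finite W] {ϑ₁ ϑ₂ : ℕ → Set W} (h1 : ∀ n, n ∉ V → ϑ₁ n = ∅)
    (h2 : ∀ n, n ∉ V → ϑ₂ n = ∅) : DirBisim P F ϑ₁ F ϑ₂ (ZZ F P V ϑ₁ ϑ₂) := by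
  have hfin : ∀ (ϑ : ℕ → Set W) (X : Set W), ((fun w => (ϑ, w)) '' X).Finite :=
    fun ϑ X => (Set.toFinite X).image _
  refine ⟨⟨?_, ?_⟩, ?_, ?_⟩
  · rintro X v ⟨w, hw, hz⟩
    obtain ⟨α, ha, hX, hY⟩ := sep F (P := P) (V := V) (hfin ϑ₁ X)
      (hfin ϑ₂ (img (ZZ F P V ϑ₁ ϑ₂) X)ᶜ) (by
        rintro _ ⟨x, hx, rfl⟩ _ ⟨y, hy, rfl⟩
        by_contra hcon
        push Not at hcon
        exact hy ⟨x, hx, fun α hα hh => hcon α hα hh⟩)
    have h3 : Tr F (ϑ₁, w) (.dia α) :=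
      F.mono _ _ (fun x hx => hX _ ⟨x, hx, rfl⟩) hw
    refine F.mono _ _ ?_ (hz (.dia α) ha h3)
    intro y hy
    by_contra hn
    exact hY _ ⟨y, hn, rfl⟩ hy
  · rintro X w ⟨v, hv, hz⟩
    by_contra hn
    obtain ⟨β, ha, hX, hY⟩ := sep F (P := P) (V := V)
      (hfin ϑ₁ (img (fun v w => ZZ F P V ϑ₁ ϑ₂ w v) X)ᶜ) (hfin ϑ₂ X) (by
        rintro _ ⟨x, hx, rfl⟩ _ ⟨y, hy, rfl⟩
        by_contra hcon
        push Not at hcon
        exact hx ⟨y, hy, fun α hα hh => hcon α hα hh⟩)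
    have h3 : Tr F (ϑ₁, w) (.box β) := by
      intro hc
      refine hn (F.mono _ _ ?_ hc)
      intro x hx
      by_contra hxn
      exact hx (hX _ ⟨x, hxn, rfl⟩)
    exact hz (.box β) ha h3 (F.mono _ _ (fun y hy hh => hY _ ⟨y, hy, rfl⟩ hh) hv)
  · rintro n v ⟨w, hw, hz⟩
    by_cases hn : n ∈ V
    · exact hz (.pos n) ⟨trivial, Finset.singleton_subset_iff.2 hn⟩ hw
    · rw [h1 n hn] at hw
      exact hw.elim
  · rintro n hP v ⟨w, hw, hz⟩
    by_cases hn : n ∈ V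
    · exact hz (.neg n) ⟨hP, Finset.singleton_subset_iff.2 hn⟩ hw
    · rw [h2 n hn]
      exact fun h => h

end

/-- The valuation which agrees with `ϑ` on `V` and is empty elsewhere. -/
noncomputable def restr (V : Finset ℕ) (ϑ : ℕ → Set W) (n : ℕ) : Set W :=
  haveI := Classical.dec (n ∈ V)
  if n ∈ V then ϑ n else ∅

lemma restr_of_mem {V : Finset ℕ} {ϑ : ℕ → Set W} {n : ℕ} (h : n ∈ V) : restr V ϑ n = ϑ n := by
  simp [restr, h]

lemma restr_of_notMem {V : Finset ℕ} {ϑ : ℕ → Set W} {n : ℕ} (h : n ∉ V) :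
    restr V ϑ n = ∅ := by
  simp [restr, h]

lemma eval_restr (F : NFrame W) {V : Finset ℕ} (ϑ : ℕ → Set W) (φ : Fm) (h : φ.vars ⊆ V) :
    F.eval (restr V ϑ) φ = F.eval ϑ φ := by
  induction φ with
  | pos n => exact restr_of_mem (Finset.singleton_subset_iff.1 h)
  | neg n => exact congrArg _ (restr_of_mem (Finset.singleton_subset_iff.1 h))
  | bot => rfl
  | top => rfl
  | and φ ψ ih1 ih2 =>
    simp only [NFrame.eval, ih1 (Finset.union_subset_left h), ih2 (Finset.union_subset_right h)]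
  | or φ ψ ih1 ih2 =>
    simp only [NFrame.eval, ih1 (Finset.union_subset_left h), ih2 (Finset.union_subset_right h)]
  | dia φ ih => simp only [NFrame.eval, ih h]
  | box φ ih => simp only [NFrame.eval, ih h]

lemma finite_range_restr [Finite W] (V : Finset ℕ) :
    (Set.range (restr V : (ℕ → Set W) → ℕ → Set W)).Finite := by
  have : (Set.range (fun g : V → Set W => fun n : ℕ =>
      haveI := Classical.dec (n ∈ V)
      if h : n ∈ V then g ⟨n, h⟩ else ∅)).Finite := Set.finite_range _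
  refine this.subset ?_
  rintro _ ⟨ϑ, rfl⟩
  refine ⟨fun n => ϑ n, ?_⟩
  funext n
  by_cases h : n ∈ V
  · simp [h, restr]
  · simp [h, restr]

/-- **Positivity and directed bisimulations on finite neighborhood frames.** For every finite
neighborhood frame `F`, every tuple `P` of variables and every formula `φ`: `φ` is equivalent in
`F` to a `P`-positive formula if and only if `φ` is preserved under all `P`-directed bisimulations
between models on `F`. -/
theorem result (W : Type*) [Finite W] (F : NFrame W) (P : List ℕ) (φ : Fm) :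
    (∃ ψ : Fm, ψ.Positive P ∧ F.Equiv φ ψ) ↔
      ∀ (ϑ₁ ϑ₂ : ℕ → Set W) (Z : W → W → Prop), DirBisim P F ϑ₁ F ϑ₂ Z →
        img Z (F.eval ϑ₁ φ) ⊆ F.eval ϑ₂ φ := by
  constructor
  · rintro ⟨ψ, hψ, he⟩ ϑ₁ ϑ₂ Z hZ
    rw [he, he]
    exact preserved hZ ψ hψ
  · intro h
    have hfin : {x : (ℕ → Set W) × W | x.1 ∈ Set.range (restr φ.vars)}.Finite := by
      have := (finite_range_restr (W := W) φ.vars).prod (Set.toFinite (Set.univ : Set W))
      refine this.subset ?_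
      rintro x hx
      exact ⟨hx, trivial⟩
    obtain ⟨ψ, hψ, h1, h2⟩ := sep F (P := P) (V := φ.vars)
      (A := {x | x.1 ∈ Set.range (restr φ.vars) ∧ Tr F x φ})
      (B := {x | x.1 ∈ Set.range (restr φ.vars) ∧ ¬ Tr F x φ})
      (hfin.subset fun x hx => hx.1) (hfin.subset fun x hx => hx.1) (by
        rintro ⟨_, w⟩ ⟨⟨ϑ₁, rfl⟩, ha⟩ ⟨_, v⟩ ⟨⟨ϑ₂, rfl⟩, hb⟩
        by_contra hcon
        push Not at hcon
        have hd := dirBisim_ZZ F (P := P) (V := φ.vars) (ϑ₁ := restr φ.vars ϑ₁)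
          (ϑ₂ := restr φ.vars ϑ₂) (fun n hn => restr_of_notMem hn)
          (fun n hn => restr_of_notMem hn)
        exact hb (h _ _ _ hd ⟨w, ha, fun α hα hh => hcon α hα hh⟩))
    refine ⟨ψ, hψ.1, fun ϑ => ?_⟩
    rw [← eval_restr F ϑ φ (Finset.Subset.refl _), ← eval_restr F ϑ ψ hψ.2]
    ext w
    constructor
    · intro hw
      exact h1 (restr φ.vars ϑ, w) ⟨⟨ϑ, rfl⟩, hw⟩
    · intro hw
      by_contra hn
      exact h2 (restr φ.vars ϑ, w) ⟨⟨ϑ, rfl⟩, hn⟩ hw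

end Pool.Agent.Results.MP_5daced_lc.DirectedBisimPositivity
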